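import Mathlib
import Pool.Agent.Helper43.Fr.Seven

/-!
# Linear supercongruences for central binomial times Franel number sums

`f_n = ∑_k C(n,k)^3` are the Franel numbers and `a_n = C(2n,n) f_n`. For every prime `p > 3` the
seven supercongruences modulo `p^2` for `∑_{n<p} (α n + β) a_n / m^n` with
`m = 5, 16, 50, 96, 320, 896, 10400` hold, each for all the primes not dividing `m`.
-/

namespace Pool.Agent.Results.MP_c866d3_nt.SevenCongruences

open Finset

/-- The Franel numbers `f_n = ∑_{k=0}^n C(n,k)^3`. -/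
def franel (n : ℕ) : ℕ := ∑ k ∈ range (n + 1), (n.choose k) ^ 3

/-- `a_n = C(2n,n) f_n`. -/
def a (n : ℕ) : ℕ := (2 * n).choose n * franel n

/-- A rational number is `p`-integral if `p` does not divide its denominator. -/
def PIntegral (p : ℕ) (x : ℚ) : Prop := ¬ p ∣ x.den

/-- `A ≡ B (mod p²)` for `p`-integral rational numbers: `A`, `B` and `(A - B)/p²` are
`p`-integral. -/
def CongrSq (p : ℕ) (A B : ℚ) : Prop :=
  PIntegral p A ∧ PIntegral p B ∧ PIntegral p ((A - B) / (p : ℚ) ^ 2)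

lemma pIntegral_of_mul {p : ℕ} {x : ℚ} {u v : ℤ} (hu : ¬ (p : ℤ) ∣ u) (hx : x * u = v) :
    PIntegral p x := by
  intro h
  apply hu
  have hu0 : (u : ℚ) ≠ 0 := by
    intro h0
    apply hu
    have : u = 0 := by exact_mod_cast h0
    rw [this]; exact dvd_zero _
  have hx' : x = v / u := by field_simp; exact hx
  have h1 : (x.den : ℤ) ∣ u := by
    rw [hx']
    exact_mod_cast Rat.den_dvd v u
  exact (Int.natCast_dvd_natCast.2 h).trans h1

lemma congrSq_of_intC {p : ℕ} [Fact p.Prime] {m α β B : ℤ} (hm : ¬ (p : ℤ) ∣ m)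
    (h : Pool.Agent.Helper43.Fr.IntC p m α β B) :
    CongrSq p (∑ n ∈ range p, ((α : ℚ) * n + β) / (m : ℚ) ^ n * a n) (B : ℚ) := by
  have hm0 : (m : ℚ) ≠ 0 := by
    intro h0
    apply hm
    have : m = 0 := by exact_mod_cast h0
    rw [this]; exact dvd_zero _
  have hpp : p.Prime := Fact.out
  have hmp : ¬ (p : ℤ) ∣ m ^ (p - 1) := fun h1 =>
    hm ((Nat.prime_iff_prime_int.1 hpp).dvd_of_dvd_pow h1)
  have hs : (∑ n ∈ range p, ((α : ℚ) * n + β) / (m : ℚ) ^ n * a n) * ((m ^ (p - 1) : ℤ) : ℚ)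
      = ((∑ n ∈ range p, (α * n + β) * (a n : ℤ) * m ^ (p - 1 - n) : ℤ) : ℚ) := by
    push_cast
    rw [sum_mul]
    refine sum_congr rfl fun n hn => ?_
    have hn' : n ≤ p - 1 := by have := mem_range.1 hn; omega
    have h3 : (m : ℚ) ^ (p - 1) = (m : ℚ) ^ (p - 1 - n) * (m : ℚ) ^ n := by
      rw [← pow_add]; congr 1; omega
    rw [h3]
    field_simp
  obtain ⟨c, hc⟩ := h
  refine ⟨pIntegral_of_mul hmp hs, ?_, ?_⟩
  · intro h1
    rw [Rat.den_intCast] at h1
    have := hpp.one_lt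
    have := Nat.le_of_dvd one_pos h1
    omega
  · refine pIntegral_of_mul (v := c) hmp ?_
    have hc' : ((∑ n ∈ range p, (α * n + β) * (a n : ℤ) * m ^ (p - 1 - n) : ℤ) : ℚ)
        - (B : ℚ) * ((m ^ (p - 1) : ℤ) : ℚ) = (p : ℚ) ^ 2 * c := by
      exact_mod_cast congrArg (Int.cast : ℤ → ℚ) hc
    have hp0 : (p : ℚ) ≠ 0 := by exact_mod_cast hpp.ne_zero
    rw [← hs] at hc'
    rw [div_mul_eq_mul_div, div_eq_iff (pow_ne_zero 2 hp0)]
    linear_combination hc'

/-- All seven supercongruences modulo `p²`, for every prime `p > 3` allowed by their conditions.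
`legendreSym p a` is the Legendre symbol `(a/p)` and `jacobiSym p n` the Jacobi symbol `(p/n)`. -/
theorem result : ∀ (p : ℕ) [Fact p.Prime], 3 < p →
    (p > 5 → CongrSq p (∑ n ∈ range p, (9 * n + 4 : ℚ) / 5 ^ n * a n) (4 * jacobiSym p 5 * p)) ∧
    CongrSq p (∑ n ∈ range p, (5 * n + 2 : ℚ) / 16 ^ n * a n) (2 * p) ∧
    (p ≠ 5 → CongrSq p (∑ n ∈ range p, (9 * n + 2 : ℚ) / 50 ^ n * a n)
      (2 * legendreSym p (-1) * p)) ∧
    CongrSq p (∑ n ∈ range p, (5 * n + 1 : ℚ) / 96 ^ n * a n) (legendreSym p (-2) * p) ∧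
    (p ≠ 5 → CongrSq p (∑ n ∈ range p, (6 * n + 1 : ℚ) / 320 ^ n * a n) (jacobiSym p 15 * p)) ∧
    (p ≠ 7 → CongrSq p (∑ n ∈ range p, (90 * n + 13 : ℚ) / 896 ^ n * a n)
      (13 * jacobiSym p 7 * p)) ∧
    (p ≠ 5 → p ≠ 13 → CongrSq p (∑ n ∈ range p, (102 * n + 11 : ℚ) / 10400 ^ n * a n)
      (11 * jacobiSym p 39 * p)) := by
  intro p _ hp
  have h6 := Pool.Agent.Helper43.Fr.nd6 (p := p) hp
  have key : ∀ {m : ℕ} {α β B : ℤ}, ¬ p ∣ m → Pool.Agent.Helper43.Fr.IntC p m α β B →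
      CongrSq p (∑ n ∈ range p, ((α : ℚ) * n + β) / (m : ℚ) ^ n * a n) (B : ℚ) := by
    intro m α β B hm h
    have := congrSq_of_intC (m := m) (by exact_mod_cast hm) h
    exact_mod_cast this
  have n2 : ∀ k : ℕ, k ∣ 6 ^ 10 → ¬ p ∣ k := fun k hk h1 =>
    h6 ((Fact.out : p.Prime).dvd_of_dvd_pow (h1.trans hk))
  have hpp : p.Prime := Fact.out
  refine ⟨fun h5 => ?_, ?_, fun h5 => ?_, ?_, fun h5 => ?_, fun h7 => ?_, fun h5 h13 => ?_⟩
  · have hm : ¬ p ∣ 5 := Pool.Agent.Helper43.Fr.nd_prime (by norm_num) (by omega)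
    have := key hm (Pool.Agent.Helper43.Fr.c5 hp (by omega))
    push_cast at this
    exact this
  · have := key (n2 16 (by norm_num)) (Pool.Agent.Helper43.Fr.c16 hp)
    push_cast at this
    exact this
  · have hm : ¬ p ∣ 50 := by
      have h5' : ¬ p ∣ 5 := Pool.Agent.Helper43.Fr.nd_prime (by norm_num) h5
      exact Pool.Agent.Helper43.Fr.nd_mul (m := 2) (n := 25) (n2 2 (by norm_num))
        (Pool.Agent.Helper43.Fr.nd_mul (m := 5) (n := 5) h5' h5')
    have := key hm (Pool.Agent.Helper43.Fr.c50 hp h5)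
    push_cast at this
    exact this
  · have := key (n2 96 (by norm_num)) (Pool.Agent.Helper43.Fr.c96 hp)
    push_cast at this
    exact this
  · have hm : ¬ p ∣ 320 := by
      have h5' : ¬ p ∣ 5 := Pool.Agent.Helper43.Fr.nd_prime (by norm_num) h5
      exact Pool.Agent.Helper43.Fr.nd_mul (m := 64) (n := 5) (n2 64 (by norm_num)) h5'
    have := key hm (Pool.Agent.Helper43.Fr.c320 hp h5)
    push_cast at this
    exact this
  · have hm : ¬ p ∣ 896 := by
      have h7' : ¬ p ∣ 7 := Pool.Agent.Helper43.Fr.nd_prime (by norm_num) h7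
      exact Pool.Agent.Helper43.Fr.nd_mul (m := 128) (n := 7) (n2 128 (by norm_num)) h7'
    have := key hm (Pool.Agent.Helper43.Fr.c896 hp h7)
    push_cast at this
    exact this
  · have hm : ¬ p ∣ 10400 := by
      have h5' : ¬ p ∣ 5 := Pool.Agent.Helper43.Fr.nd_prime (by norm_num) h5
      have h13' : ¬ p ∣ 13 := Pool.Agent.Helper43.Fr.nd_prime (by norm_num) h13
      exact Pool.Agent.Helper43.Fr.nd_mul (m := 800) (n := 13)
        (Pool.Agent.Helper43.Fr.nd_mul (m := 32) (n := 25) (n2 32 (by norm_num))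
          (Pool.Agent.Helper43.Fr.nd_mul (m := 5) (n := 5) h5' h5')) h13'
    have := key hm (Pool.Agent.Helper43.Fr.c10400 hp h5 h13)
    push_cast at this
    exact this

end Pool.Agent.Results.MP_c866d3_nt.SevenCongruences
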